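import Pool.Agent.U84.AWQ.Stm
import Pool.Agent.R456.CL.Sup

/-!
# Project AWQ, package CS: centrally separated projections
-/

set_option autoImplicit false

namespace Pool.Agent.U606.AWQ

universe u

open Pool.Agent.R456.CL Pool.Agent.U84.AWQ
open Pool.Agent.R456.CL.Sup (star_eq star_zero_right star_zero_left pj_zero_comm le_right le_left
  cut_ne)

/-- Package CS. -/
theorem t_CS : S_CS.{u} := by
  intro A _ hS hC e f he hf hef
  obtain ⟨c, hc⟩ := hS {p : A // PJ p ∧ ∀ x : A, p * x * f = 0} (fun p => (p : A))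
    (fun p => p.2.1)
  have hfc : f * c = 0 := hc.2.2 f fun p => by
    have h1 := p.2.2 1
    rw [mul_one] at h1
    exact pj_zero_comm p.2.1 hf h1
  have hec : e * c = e := hc.2.1 ⟨e, he, hef⟩
  have hcp : ∀ p : {p : A // PJ p ∧ ∀ x : A, p * x * f = 0}, c * (p : A) = p := fun p =>
    le_right p.2.1 hc.1 (hc.2.1 p)
  have hcen : ∀ x : A, (1 - c) * x * c = 0 := by
    intro x
    refine hc.2.2 _ fun p => ?_
    by_contra hne
    have hne' : star ((1 - c) * x * (p : A)) ≠ 0 := fun h => hne (star_eq_zero.1 h)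
    obtain ⟨k, s, hk0, hk, hs, h1, h2⟩ := cut_ne hC hne'
    rw [star_star] at h1 h2
    have h3 : c * k = 0 := by
      rw [← h2]
      simp only [← mul_assoc, mul_sub, mul_one, Sup.mul_self hc.1, sub_self, zero_mul]
    have h4 : ∀ z : A, k * z * f = 0 := by
      intro z
      have h5 := p.2.2 (star x * (1 - c) * z)
      rw [← h1, star_mul, star_mul, star_eq p.2.1, star_eq hc.1.one_sub]
      have h6 : s * s * ((1 - c) * x * (p : A) * ((p : A) * (star x * (1 - c)))) * z * f =
          s * s * ((1 - c) * x * (p : A)) * ((p : A) * (star x * (1 - c) * z) * f) := by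
        simp only [mul_assoc]
      rw [h6, h5, mul_zero]
    have h5 := hcp ⟨k, hk, h4⟩
    exact hk0 (h5.symm.trans h3)
  have hcen' : ∀ x : A, c * x * (1 - c) = 0 := by
    intro x
    have h1 := congrArg star (hcen (star x))
    rw [star_mul, star_mul, star_star, star_eq hc.1, star_eq hc.1.one_sub, star_zero,
      ← mul_assoc] at h1
    exact h1
  refine ⟨c, ⟨hc.1, fun x => ?_⟩, hec, hfc⟩
  have h1 := hcen x
  have h2 := hcen' x
  rw [sub_mul, sub_mul, one_mul, sub_eq_zero] at h1
  rw [mul_sub, mul_one, sub_eq_zero] at h2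
  rw [h2, ← h1]

end Pool.Agent.U606.AWQ
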